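import Pool.Agent.Y315.LV.Odd

/-! # Integrals of invariant measures -/

namespace Pool.Agent.Y315.LV

open MeasureTheory Filter Topology

lemma norm_fourier_le (n : ℤ) (x : UnitAddCircle) : ‖(fourier n x : ℂ)‖ ≤ 1 := by
  rw [fourier_apply]; exact (Circle.norm_coe _).le

lemma integrable_fourier (μ : Measure UnitAddCircle) [IsProbabilityMeasure μ] (n : ℤ) :
    Integrable (fun x => (fourier n x : ℂ)) μ := by
  refine Integrable.of_bound (C := 1) ?_ (Filter.Eventually.of_forall (norm_fourier_le n))
  exact (map_continuous (fourier n)).aestronglyMeasurable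

lemma norm_int_fourier_le (μ : Measure UnitAddCircle) [IsProbabilityMeasure μ] (n : ℤ) :
    ‖∫ x, (fourier n x : ℂ) ∂μ‖ ≤ 1 := by
  refine (norm_integral_le_of_norm_le_const
    (Filter.Eventually.of_forall (norm_fourier_le n))).trans ?_
  simp

lemma int_fourier_mul {μ : Measure UnitAddCircle} {p : ℕ}
    (h : MeasurePreserving (fun x : UnitAddCircle => p • x) μ μ) (n : ℤ) :
    ∫ x, (fourier (n * p) x : ℂ) ∂μ = ∫ x, (fourier n x : ℂ) ∂μ := by
  have h1 : ∫ x, (fourier n x : ℂ) ∂μ = ∫ x, (fourier n (p • x) : ℂ) ∂μ := by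
    conv_lhs => rw [← h.map_eq]
    rw [integral_map h.measurable.aemeasurable]
    exact (map_continuous (fourier n)).aestronglyMeasurable
  rw [h1]
  simp only [fourier_mul_nat]

lemma hasSum_int (f : C(UnitAddCircle, ℝ)) (hn : Summable fun n : ℤ => ‖co f n‖)
    (μ : Measure UnitAddCircle) [IsProbabilityMeasure μ] :
    HasSum (fun n : ℤ => if n = 0 then 0 else co f n * ∫ x, (fourier n x : ℂ) ∂μ)
      (((∫ x, f x ∂μ - m0 f : ℝ)) : ℂ) := by
  have hs : Summable (co f) := hn.of_norm
  set F : ℤ → UnitAddCircle → ℂ := fun n x => if n = 0 then 0 else co f n * fourier n x with hF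
  have hFi : ∀ n, Integrable (F n) μ := by
    intro n
    simp only [hF]
    by_cases h : n = 0
    · simp [h]
    · simp only [h, if_false]
      exact (integrable_fourier μ n).const_mul _
  have hFn : ∀ n x, ‖F n x‖ ≤ ‖co f n‖ := by
    intro n x
    simp only [hF]
    split_ifs
    · simp
    · rw [norm_mul]
      exact mul_le_of_le_one_right (norm_nonneg _) (norm_fourier_le n x)
  have hsum : Summable fun n => ∫ x, ‖F n x‖ ∂μ := by
    refine Summable.of_nonneg_of_le (fun n => integral_nonneg (fun x => norm_nonneg _))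
      (fun n => ?_) hn
    calc ∫ x, ‖F n x‖ ∂μ ≤ ∫ _, ‖co f n‖ ∂μ :=
          integral_mono (hFi n).norm (integrable_const _) (fun x => hFn n x)
      _ = ‖co f n‖ := by simp
  have h1 := hasSum_integral_of_summable_integral_norm hFi hsum
  have h2 : ∫ x, (∑' n, F n x) ∂μ = (((∫ x, f x ∂μ - m0 f : ℝ)) : ℂ) := by
    have e : ∀ x, (∑' n, F n x) = (((f x - m0 f : ℝ)) : ℂ) := fun x => (hasSum_sub f hs x).tsum_eq
    simp only [e]
    rw [integral_complex_ofReal]
    congr 1
    rw [integral_sub, integral_const]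
    · simp
    · refine Integrable.of_bound (C := ‖f‖) f.continuous.aestronglyMeasurable
        (Filter.Eventually.of_forall (fun x => f.norm_coe_le_norm x))
    · exact integrable_const _
  rw [h2] at h1
  have e3 : (fun n => ∫ x, F n x ∂μ)
      = fun n : ℤ => if n = 0 then 0 else co f n * ∫ x, (fourier n x : ℂ) ∂μ := by
    funext n
    simp only [hF]
    by_cases h : n = 0
    · simp [h]
    · simp only [h, if_false]
      exact integral_const_mul _ _
  rw [e3] at h1
  exact h1

section

variable {P : Finset ℕ} (hP : ∀ p ∈ P, p.Prime) {f : C(UnitAddCircle, ℝ)} (hmax : LebMax P f)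
  (hd : Dsum f) (μ : Measure UnitAddCircle) [IsProbabilityMeasure μ]
  (hμ : ∀ p ∈ P, MeasurePreserving (fun x : UnitAddCircle => p • x) μ μ)

include hP hmax hd hμ

lemma pos_part : ∑' n : ℕ, (if n = 0 then 0 else co f n) * ∫ x, (fourier (n : ℤ) x : ℂ) ∂μ = 0 := by
  apply weighted (P := P) _ (by simp) _ hP
  · intro n; exact norm_int_fourier_le μ n
  · intro p hp n
    rw [← int_fourier_mul (hμ p hp) (n : ℤ)]
    push_cast; rw [mul_comm]
  · have h1 : Summable fun n : ℕ => ‖co f (n : ℤ)‖ :=
      hd.norm.comp_injective (Nat.cast_injective (R := ℤ))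
    refine Summable.of_nonneg_of_le (fun n => norm_nonneg _) (fun n => ?_) h1
    split_ifs <;> simp
  · intro d hdc
    exact pos_sum hP hmax hd hdc

lemma neg_part : ∑' n : ℕ, (if n = 0 then 0 else co f (-(n : ℤ))) *
    ∫ x, (fourier (-(n : ℤ)) x : ℂ) ∂μ = 0 := by
  apply weighted (P := P) _ (by simp) _ hP
  · intro n; exact norm_int_fourier_le μ _
  · intro p hp n
    rw [← int_fourier_mul (hμ p hp) (-(n : ℤ))]
    push_cast
    rw [show -(n : ℤ) * (p : ℤ) = -((p : ℤ) * n) by ring]
  · have h1 : Summable fun n : ℕ => ‖co f (-(n : ℤ))‖ :=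
      hd.norm.comp_injective (fun a b h => by
        have h' : -(a : ℤ) = -(b : ℤ) := h
        omega)
    refine Summable.of_nonneg_of_le (fun n => norm_nonneg _) (fun n => ?_) h1
    split_ifs <;> simp
  · intro d hdc
    exact neg_sum hP hmax hd hdc

/-- All invariant measures have the same integral. -/
theorem integral_eq : ∫ x, f x ∂μ = ∫ x, f x ∂(AddCircle.haarAddCircle : Measure UnitAddCircle) := by
  have h1 := hasSum_int f hd.norm μ
  have hpos := pos_part hP hmax hd μ hμ
  have hneg := neg_part hP hmax hd μ hμ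
  set G : ℤ → ℂ := fun n => if n = 0 then 0 else co f n * ∫ x, (fourier n x : ℂ) ∂μ with hG
  have hsG : Summable G := h1.summable
  have e1 : ∀ n : ℕ, G n = (if n = 0 then 0 else co f n) * ∫ x, (fourier (n : ℤ) x : ℂ) ∂μ := by
    intro n
    simp only [hG]
    by_cases h : n = 0
    · simp [h]
    · have : ((n : ℤ)) ≠ 0 := by exact_mod_cast h
      simp [h]
  have e2 : ∀ n : ℕ, G (-(n : ℤ)) = (if n = 0 then 0 else co f (-(n : ℤ))) *
      ∫ x, (fourier (-(n : ℤ)) x : ℂ) ∂μ := by
    intro n
    simp only [hG]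
    by_cases h : n = 0
    · simp [h]
    · have : (-(n : ℤ)) ≠ 0 := by
        rw [neg_ne_zero]; exact_mod_cast h
      simp [h]
  have s1 : Summable fun n : ℕ => G n := hsG.comp_injective (Nat.cast_injective (R := ℤ))
  have s2 : Summable fun n : ℕ => G (-(n : ℤ)) := hsG.comp_injective (fun a b h => by
        have h' : -(a : ℤ) = -(b : ℤ) := h
        omega)
  have t1 : ∑' n : ℕ, G n = 0 := by simp only [e1]; exact hpos
  have t2 : ∑' n : ℕ, G (-(n : ℤ)) = 0 := by simp only [e2]; exact hneg
  have h3 : HasSum G (0 + 0 - G 0) := by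
    have a1 : HasSum (fun n : ℕ => G n) 0 := by rw [← t1]; exact s1.hasSum
    have a2 : HasSum (fun n : ℕ => G (-(n : ℤ))) 0 := by
      have := s2.hasSum
      rwa [t2] at this
    exact HasSum.of_nat_of_neg a1 a2
  have h4 := h1.unique h3
  have hG0 : G 0 = 0 := by simp [hG]
  rw [hG0] at h4
  simp only [add_zero, sub_zero] at h4
  have h5 : ∫ x, f x ∂μ - m0 f = 0 := by exact_mod_cast h4
  have h6 : m0 f = ∫ x, f x ∂(AddCircle.haarAddCircle : Measure UnitAddCircle) := rfl
  linarith

end

end Pool.Agent.Y315.LV
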