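import Mathlib

/-! # Sums over multiples and multiplicatively invariant weights -/

namespace Pool.Agent.Y315.LV

open Filter Topology

/-- `m` has no prime factor in `P` (and is positive). -/
def Cop (P : Finset ℕ) (m : ℕ) : Prop := 0 < m ∧ ∀ p ∈ P, ¬ p ∣ m

/-- All prime factors of `s` are in `P` (and `s` is positive). -/
def Smo (P : Finset ℕ) (s : ℕ) : Prop := 0 < s ∧ ∀ r : ℕ, r.Prime → r ∣ s → r ∈ P

variable {P : Finset ℕ} (hP : ∀ p ∈ P, p.Prime)

include hP in
lemma Cop.mul {a b : ℕ} (ha : Cop P a) (hb : Cop P b) : Cop P (a * b) :=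
  ⟨Nat.mul_pos ha.1 hb.1, fun p hp h => by
    rcases (hP p hp).dvd_mul.1 h with h | h
    · exact ha.2 p hp h
    · exact hb.2 p hp h⟩

lemma Cop.of_dvd {a b : ℕ} (hb : Cop P b) (h : a ∣ b) : Cop P a :=
  ⟨Nat.pos_of_dvd_of_pos h hb.1, fun p hp h' => hb.2 p hp (h'.trans h)⟩

include hP in
lemma exists_decomp (n : ℕ) (hn : 0 < n) : ∃ m s, Cop P m ∧ Smo P s ∧ n = m * s := by
  induction n using Nat.strong_induction_on with
  | _ n ih =>
    by_cases h : ∃ p ∈ P, p ∣ n
    · obtain ⟨p, hp, k, rfl⟩ := h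
      have hp2 := (hP p hp).two_le
      have hk : 0 < k := Nat.pos_of_ne_zero (by rintro rfl; simp at hn)
      obtain ⟨m, s, hm, hs, e⟩ := ih k (by nlinarith) hk
      refine ⟨m, p * s, hm, ⟨Nat.mul_pos (by omega) hs.1, fun r hr hd => ?_⟩, by rw [e]; ring⟩
      rcases hr.dvd_mul.1 hd with h1 | h1
      · rwa [(Nat.prime_dvd_prime_iff_eq hr (hP p hp)).1 h1]
      · exact hs.2 r hr h1
    · push Not at h
      exact ⟨n, 1, ⟨hn, h⟩, ⟨one_pos, fun r hr hd => absurd (Nat.dvd_one.1 hd) hr.one_lt.ne'⟩,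
        by ring⟩

lemma coprime_of {m s : ℕ} (hm : Cop P m) (hs : Smo P s) : Nat.Coprime m s := by
  rw [Nat.coprime_iff_gcd_eq_one] at *
  by_contra h
  obtain ⟨r, hr, hd⟩ := Nat.exists_prime_and_dvd h
  exact hm.2 r (hs.2 r hr (hd.trans (Nat.gcd_dvd_right _ _))) (hd.trans (Nat.gcd_dvd_left _ _))

lemma decomp_inj {m s m' s' : ℕ} (hm : Cop P m) (hs : Smo P s) (hm' : Cop P m') (hs' : Smo P s')
    (h : m * s = m' * s') : m = m' ∧ s = s' := by
  have h1 : m ∣ m' := by
    have : m ∣ m' * s' := ⟨s, h.symm⟩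
    exact (coprime_of hm hs').dvd_of_dvd_mul_right this
  have h2 : m' ∣ m := by
    have : m' ∣ m * s := ⟨s', h⟩
    exact (coprime_of hm' hs).dvd_of_dvd_mul_right this
  have h3 := Nat.dvd_antisymm h1 h2
  refine ⟨h3, ?_⟩
  subst h3
  exact Nat.eq_of_mul_eq_mul_left hm.1 h

lemma summable_mul_left {α : ℕ → ℂ} (hα : Summable fun n => ‖α n‖) {d : ℕ} (hd : 0 < d) :
    Summable fun n => ‖α (d * n)‖ :=
  hα.comp_injective (fun a b h => Nat.eq_of_mul_eq_mul_left hd h)

/-- Sums over the multiples which are prime to a finite set of primes `R`. -/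
lemma sieve {α : ℕ → ℂ} (hα : Summable fun n => ‖α n‖)
    (h0 : ∀ d, Cop P d → ∑' n, α (d * n) = 0) (hP : ∀ p ∈ P, p.Prime) (R : Finset ℕ)
    (hR : ∀ r ∈ R, r.Prime ∧ r ∉ P) :
    ∀ d, Cop P d → ∑' n, (if ∀ r ∈ R, ¬ r ∣ n then α (d * n) else 0) = 0 := by
  classical
  induction R using Finset.induction_on with
  | empty => intro d hd; simpa using h0 d hd
  | insert r R hr ih =>
    intro d hd
    have hR' : ∀ r ∈ R, r.Prime ∧ r ∉ P := fun q hq => hR q (Finset.mem_insert_of_mem hq)
    have hrp := (hR r (Finset.mem_insert_self _ _)).1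
    have hrP := (hR r (Finset.mem_insert_self _ _)).2
    have hdr : Cop P (d * r) := hd.mul hP ⟨hrp.pos, fun p hp h =>
      hrP (by rwa [← (Nat.prime_dvd_prime_iff_eq (hP p hp) hrp).1 h])⟩
    have e1 := ih hR' d hd
    have e2 := ih hR' (d * r) hdr
    -- terms divisible by r
    set F : ℕ → ℂ := fun n => if ∀ q ∈ R, ¬ q ∣ n then α (d * n) else 0 with hF
    have hFs : Summable F := by
      have := summable_mul_left hα hd.1
      refine Summable.of_norm_bounded this (fun n => ?_)
      simp only [hF]; split_ifs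
      · exact le_rfl
      · simp
    have hFr : ∀ n, F (r * n) = if ∀ q ∈ R, ¬ q ∣ n then α (d * r * n) else 0 := by
      intro n
      simp only [hF]
      have : (∀ q ∈ R, ¬ q ∣ r * n) ↔ (∀ q ∈ R, ¬ q ∣ n) := by
        constructor
        · intro h q hq hd'
          exact h q hq (hd'.mul_left r)
        · intro h q hq hd'
          rcases (hR' q hq).1.dvd_mul.1 hd' with h1 | h1
          · have := (Nat.prime_dvd_prime_iff_eq (hR' q hq).1 hrp).1 h1
            rw [this] at hq
            exact hr hq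
          · exact h q hq h1
      rw [mul_assoc]
      simp only [this]
    have hsplit : ∑' n, F n = ∑' n, (if r ∣ n then F n else 0) + ∑' n, (if r ∣ n then 0 else F n) := by
      rw [← Summable.tsum_add]
      · congr 1; funext n; split_ifs <;> simp
      · refine Summable.of_norm_bounded hFs.norm (fun n => ?_)
        split_ifs <;> simp
      · refine Summable.of_norm_bounded hFs.norm (fun n => ?_)
        split_ifs <;> simp
    have hdiv : ∑' n, (if r ∣ n then F n else 0) = ∑' n, F (r * n) := by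
      have hinj : Function.Injective (fun n : ℕ => r * n) :=
        fun a b h => Nat.eq_of_mul_eq_mul_left hrp.pos h
      rw [← hinj.tsum_eq (f := fun n => if r ∣ n then F n else 0)]
      · congr 1; funext n; simp
      · intro n hn
        simp only [Function.mem_support] at hn
        have : r ∣ n := by by_contra h; simp [h] at hn
        obtain ⟨k, rfl⟩ := this
        exact ⟨k, rfl⟩
    have hF0 : ∑' n, F (r * n) = 0 := by
      simp only [hFr]; exact e2
    rw [hdiv, hF0, zero_add] at hsplit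
    have : (fun n => if ∀ q ∈ insert r R, ¬ q ∣ n then α (d * n) else 0)
        = fun n => if r ∣ n then 0 else F n := by
      funext n
      simp only [hF, Finset.forall_mem_insert]
      by_cases h : r ∣ n <;> simp [h]
    rw [this, ← hsplit]
    exact e1

/-- The class sums vanish. -/
lemma class_sum {α : ℕ → ℂ} (hα : Summable fun n => ‖α n‖) (hα0 : α 0 = 0)
    (h0 : ∀ d, Cop P d → ∑' n, α (d * n) = 0) (hP : ∀ p ∈ P, p.Prime) {m : ℕ} (hm : Cop P m) :
    ∑' s : {s // Smo P s}, α (m * s) = 0 := by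
  classical
  set R : ℕ → Finset ℕ := fun y => (Finset.range y).filter (fun r => r.Prime ∧ r ∉ P) with hRdef
  have hR : ∀ y, ∀ r ∈ R y, r.Prime ∧ r ∉ P := fun y r hr => (Finset.mem_filter.1 hr).2
  have h1 : ∀ y, ∑' n, (if ∀ r ∈ R y, ¬ r ∣ n then α (m * n) else 0) = 0 := fun y =>
    sieve hα h0 hP (R y) (hR y) m hm
  have lim : Tendsto (fun y => ∑' n, (if ∀ r ∈ R y, ¬ r ∣ n then α (m * n) else 0)) atTop
      (𝓝 (∑' n, (if Smo P n then α (m * n) else 0))) := by
    apply tendsto_tsum_of_dominated_convergence (summable_mul_left hα hm.1)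
    · intro n
      rcases Nat.eq_zero_or_pos n with rfl | hn
      · simp [hα0]
      · by_cases hs : Smo P n
        · rw [if_pos hs]
          apply tendsto_const_nhds.congr
          intro y
          rw [if_pos]
          intro r hr hd
          exact (hR y r hr).2 (hs.2 r (hR y r hr).1 hd)
        · rw [if_neg hs]
          have : ∃ r : ℕ, r.Prime ∧ r ∣ n ∧ r ∉ P := by
            unfold Smo at hs
            push Not at hs
            obtain ⟨r, h1, h2, h3⟩ := hs hn
            exact ⟨r, h1, h2, h3⟩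
          obtain ⟨r, hr1, hr2, hr3⟩ := this
          apply tendsto_const_nhds.congr'
          filter_upwards [eventually_gt_atTop r] with y hy
          rw [if_neg]
          intro h
          exact h r (Finset.mem_filter.2 ⟨Finset.mem_range.2 hy, hr1, hr3⟩) hr2
    · filter_upwards with y n
      split_ifs
      · exact le_rfl
      · simp
  simp only [h1] at lim
  have h2 := tendsto_nhds_unique lim tendsto_const_nhds
  rw [← h2]
  have hinj : Function.Injective (fun s : {s // Smo P s} => (s : ℕ)) := Subtype.val_injective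
  have h3 := hinj.tsum_eq (f := fun n => if Smo P n then α (m * n) else 0) (by
    intro n hn
    simp only [Function.mem_support] at hn
    have : Smo P n := by by_contra h; simp [h] at hn
    exact ⟨⟨n, this⟩, rfl⟩)
  rw [← h3]
  congr 1
  funext s
  rw [if_pos s.2]

/-- **Invariant weights.** -/
theorem weighted {α c : ℕ → ℂ} (hα : Summable fun n => ‖α n‖) (hα0 : α 0 = 0)
    (h0 : ∀ d, Cop P d → ∑' n, α (d * n) = 0) (hP : ∀ p ∈ P, p.Prime)
    (hc : ∀ n, ‖c n‖ ≤ 1) (hc2 : ∀ p ∈ P, ∀ n, c (p * n) = c n) : ∑' n, α n * c n = 0 := by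
  classical
  -- invariance under smooth numbers
  have hc3 : ∀ s, Smo P s → ∀ m, c (m * s) = c m := by
    intro s
    induction s using Nat.strong_induction_on with
    | _ s ih =>
      intro hs m
      by_cases h1 : s = 1
      · rw [h1, mul_one]
      · obtain ⟨r, hr, k, rfl⟩ := Nat.exists_prime_and_dvd h1
        have hrP := hs.2 r hr (dvd_mul_right _ _)
        have hk : 0 < k := Nat.pos_of_ne_zero (by rintro rfl; simp at hs; exact absurd hs.1 (by simp))
        have hk2 : Smo P k := ⟨hk, fun q hq hd => hs.2 q hq (hd.mul_left r)⟩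
        have := hr.two_le
        rw [show m * (r * k) = r * (m * k) by ring, hc2 r hrP, ih k (by nlinarith) hk2]
  set Φ : {m // Cop P m} × {s // Smo P s} → ℕ := fun x => (x.1 : ℕ) * (x.2 : ℕ) with hΦ
  have hinj : Function.Injective Φ := by
    rintro ⟨⟨m, hm⟩, ⟨s, hs⟩⟩ ⟨⟨m', hm'⟩, ⟨s', hs'⟩⟩ h
    obtain ⟨h1, h2⟩ := decomp_inj hm hs hm' hs' h
    subst h1 h2; rfl
  have hF : Summable (fun n => α n * c n) := by
    refine Summable.of_norm_bounded hα (fun n => ?_)
    rw [norm_mul]
    exact mul_le_of_le_one_right (norm_nonneg _) (hc n)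
  rw [← hinj.tsum_eq]
  · have hs : Summable (fun x : {m // Cop P m} × {s // Smo P s} => α (Φ x) * c (Φ x)) :=
      hF.comp_injective hinj
    rw [hs.tsum_prod]
    have : ∀ m : {m // Cop P m}, ∑' s : {s // Smo P s}, α (Φ (m, s)) * c (Φ (m, s)) = 0 := by
      intro m
      have e : ∀ s : {s // Smo P s}, α (Φ (m, s)) * c (Φ (m, s)) = α (m * s) * c m := by
        intro s
        simp only [hΦ]
        rw [hc3 s s.2]
      simp only [e]
      rw [tsum_mul_right, class_sum hα hα0 h0 hP m.2, zero_mul]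
    simp only [this, tsum_zero]
  · intro n hn
    simp only [Function.mem_support] at hn
    have hn0 : 0 < n := Nat.pos_of_ne_zero (by rintro rfl; simp [hα0] at hn)
    obtain ⟨m, s, hm, hs, e⟩ := exists_decomp hP n hn0
    exact ⟨(⟨m, hm⟩, ⟨s, hs⟩), e.symm⟩

end Pool.Agent.Y315.LV
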