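import Pool.Agent.Y315.LV.Tors
import Pool.Agent.Y315.LV.Sieve

/-! # Weighted measures on torsion points -/

namespace Pool.Agent.Y315.LV

open MeasureTheory Filter Topology

/-- Lebesgue measure maximises `∫ f` among the finitely supported invariant measures. -/
def LebMax (P : Finset ℕ) (f : UnitAddCircle → ℝ) : Prop :=
  ∀ ν : Measure UnitAddCircle, IsProbabilityMeasure ν →
    (∀ p ∈ P, MeasurePreserving (fun x => p • x) ν ν) →
    (∃ S : Finset UnitAddCircle, ν (S : Set UnitAddCircle)ᶜ = 0) →
    ∫ x, f x ∂ν ≤ ∫ x, f x ∂(AddCircle.haarAddCircle : Measure UnitAddCircle)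

/-- The Lebesgue mean. -/
noncomputable def m0 (f : UnitAddCircle → ℝ) : ℝ :=
  ∫ x, f x ∂(AddCircle.haarAddCircle : Measure UnitAddCircle)

lemma Cop.coprime {P : Finset ℕ} (hP : ∀ p ∈ P, p.Prime) {N : ℕ} (hN : Cop P N) {p : ℕ}
    (hp : p ∈ P) : p.Coprime N :=
  (hP p hp).coprime_iff_not_dvd.2 (hN.2 p hp)

section

variable {P : Finset ℕ} (hP : ∀ p ∈ P, p.Prime) {f : UnitAddCircle → ℝ} (hmax : LebMax P f)

include hP hmax

lemma weighted_le {N : ℕ} (hN : Cop P N) (φ : UnitAddCircle → ℝ) (h0 : ∀ x ∈ tors N, 0 ≤ φ x)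
    (hinv : ∀ p ∈ P, ∀ x ∈ tors N, φ (p • x) = φ x) :
    ∑ x ∈ tors N, φ x * (f x - m0 f) ≤ 0 := by
  classical
  set W := ∑ x ∈ tors N, φ x with hW
  have hW0 : 0 ≤ W := Finset.sum_nonneg h0
  rcases hW0.eq_or_lt with h | h
  · have : ∀ x ∈ tors N, φ x = 0 := (Finset.sum_eq_zero_iff_of_nonneg h0).1 h.symm
    rw [Finset.sum_congr rfl (fun x hx => by rw [this x hx, zero_mul])]
    simp
  · set w : UnitAddCircle → ENNReal := fun x => ENNReal.ofReal (φ x / W) with hw
    set ν : Measure UnitAddCircle := ∑ x ∈ tors N, w x • Measure.dirac x with hν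
    have hνs : ∀ s, MeasurableSet s → ν s = ∑ x ∈ tors N, w x * s.indicator 1 x := by
      intro s hs
      rw [hν, Measure.finsetSum_apply]
      refine Finset.sum_congr rfl (fun x _ => ?_)
      rw [Measure.smul_apply, Measure.dirac_apply' x hs, smul_eq_mul]
    have hprob : IsProbabilityMeasure ν := by
      refine ⟨?_⟩
      rw [hνs _ MeasurableSet.univ]
      simp only [Set.indicator_univ, Pi.one_apply, mul_one, hw]
      rw [← ENNReal.ofReal_sum_of_nonneg (fun x hx => div_nonneg (h0 x hx) h.le),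
        ← Finset.sum_div, div_self h.ne', ENNReal.ofReal_one]
    have hmp : ∀ p ∈ P, MeasurePreserving (fun x => p • x) ν ν := by
      intro p hp
      have hm : Measurable (fun x : UnitAddCircle => p • x) := (continuous_nsmul p).measurable
      refine ⟨hm, ?_⟩
      ext s hs
      rw [Measure.map_apply hm hs, hνs _ (hm hs), hνs _ hs]
      rw [← sum_nsmul hN.1 (hN.coprime hP hp) (fun x => w x * s.indicator 1 x)]
      refine Finset.sum_congr rfl (fun x hx => ?_)
      simp only [hw, hinv p hp x hx]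
      rfl
    have hsupp : ν ((tors N : Finset UnitAddCircle) : Set UnitAddCircle)ᶜ = 0 := by
      rw [hνs _ (Finset.measurableSet _).compl]
      apply Finset.sum_eq_zero
      intro x hx
      rw [Set.indicator_of_notMem, mul_zero]
      simpa using hx
    have hint : ∫ x, f x ∂ν = ∑ x ∈ tors N, (φ x / W) * f x := by
      rw [hν, integral_finsetSum_measure]
      · refine Finset.sum_congr rfl (fun x hx => ?_)
        rw [integral_smul_measure, integral_dirac, hw, smul_eq_mul,
          ENNReal.toReal_ofReal (div_nonneg (h0 x hx) h.le)]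
      · intro x _
        refine Integrable.smul_measure ?_ ENNReal.ofReal_ne_top
        exact integrable_dirac (by simp)
    have key := hmax ν hprob hmp ⟨tors N, hsupp⟩
    rw [hint] at key
    have e : ∑ x ∈ tors N, φ x * (f x - m0 f)
        = W * (∑ x ∈ tors N, (φ x / W) * f x - m0 f) := by
      rw [mul_sub, Finset.mul_sum, hW, Finset.sum_mul, ← Finset.sum_sub_distrib]
      refine Finset.sum_congr rfl (fun x _ => ?_)
      rw [← hW]
      field_simp
    rw [e]
    exact mul_nonpos_of_nonneg_of_nonpos h.le (by unfold m0; linarith)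

/-- The lower bound coming from multiples of `N`. -/
lemma weighted_ge {N j : ℕ} (hN : Cop P N) (hj : Cop P (N * j)) (φ : UnitAddCircle → ℝ) {C : ℝ}
    (hC : ∀ x ∈ tors N, φ x ≤ C) (hC0 : 0 ≤ C)
    (hinv : ∀ p ∈ P, ∀ x ∈ tors N, φ (p • x) = φ x) :
    C * ∑ x ∈ tors (N * j), (f x - m0 f) ≤ ∑ x ∈ tors N, φ x * (f x - m0 f) := by
  classical
  set ψ : UnitAddCircle → ℝ := fun x => C - (if N • x = 0 then φ x else 0) with hψ
  have h1 : ∑ x ∈ tors (N * j), ψ x * (f x - m0 f) ≤ 0 := by
    apply weighted_le hP hmax hj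
    · intro x _
      simp only [hψ]
      split_ifs with h
      · have := hC x ((mem_tors hN.1).2 h); linarith
      · linarith
    · intro p hp x hx
      simp only [hψ]
      have hx' := (mem_tors hj.1).1 hx
      have : N • (p • x) = 0 ↔ N • x = 0 := by
        constructor
        · intro h
          apply coprime_smul (hj.coprime hP hp) (x := N • x)
          · rw [smul_comm, hx', smul_zero]
          · rw [smul_comm]; exact h
        · intro h; rw [smul_comm, h, smul_zero]
      by_cases h : N • x = 0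
      · rw [if_pos h, if_pos (this.2 h), hinv p hp x ((mem_tors hN.1).2 h)]
      · rw [if_neg h, if_neg (fun h' => h (this.1 h'))]
  have h2 : ∑ x ∈ tors (N * j), ψ x * (f x - m0 f)
      = C * ∑ x ∈ tors (N * j), (f x - m0 f)
        - ∑ x ∈ tors (N * j), (if N • x = 0 then φ x * (f x - m0 f) else 0) := by
    rw [Finset.mul_sum, ← Finset.sum_sub_distrib]
    refine Finset.sum_congr rfl (fun x _ => ?_)
    simp only [hψ]
    split_ifs <;> ring
  have h3 : ∑ x ∈ tors (N * j), (if N • x = 0 then φ x * (f x - m0 f) else 0)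
      = ∑ x ∈ tors N, φ x * (f x - m0 f) := by
    rw [← Finset.sum_filter]
    refine Finset.sum_congr ?_ (fun _ _ => rfl)
    ext x
    rw [Finset.mem_filter, mem_tors hj.1, mem_tors hN.1]
    constructor
    · exact fun h => h.2
    · intro h
      exact ⟨by rw [mul_comm, mul_smul, h, smul_zero], h⟩
  rw [h2, h3] at h1
  linarith

end

/-- Complex version of a real function. -/
noncomputable def fC (f : C(UnitAddCircle, ℝ)) : C(UnitAddCircle, ℂ) :=
  ⟨fun x => (f x : ℂ), Complex.continuous_ofReal.comp f.continuous⟩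

/-- Fourier coefficients. -/
noncomputable def co (f : C(UnitAddCircle, ℝ)) (n : ℤ) : ℂ := fourierCoeff (fC f) n

lemma co_zero (f : C(UnitAddCircle, ℝ)) : co f 0 = (m0 f : ℂ) := by
  unfold co fourierCoeff m0
  have h := integral_ofReal (𝕜 := ℂ) (μ := (AddCircle.haarAddCircle : Measure UnitAddCircle))
    (f := fun x => f x)
  rw [← show ((∫ x, f x ∂(AddCircle.haarAddCircle : Measure UnitAddCircle) : ℝ) : ℂ)
    = ((∫ x, f x ∂(AddCircle.haarAddCircle : Measure UnitAddCircle) : ℝ) : ℂ) from rfl]
  refine Eq.trans ?_ h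
  apply integral_congr_ae
  filter_upwards with x
  simp [fC]

lemma hasSum_sub (f : C(UnitAddCircle, ℝ)) (hs : Summable (co f)) (x : UnitAddCircle) :
    HasSum (fun n : ℤ => if n = 0 then 0 else co f n * fourier n x) (((f x - m0 f : ℝ)) : ℂ) := by
  classical
  have h1 : HasSum (fun n : ℤ => co f n * fourier n x) (f x : ℂ) :=
    has_pointwise_sum_fourier_series_of_summable (f := fC f) hs x
  have h2 : HasSum (fun n : ℤ => if n = 0 then co f 0 else 0) (m0 f : ℂ) := by
    rw [← co_zero]
    exact hasSum_ite_eq 0 _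
  have h3 := h1.sub h2
  push_cast
  have e : (fun n : ℤ => if n = 0 then 0 else co f n * fourier n x)
      = fun n : ℤ => co f n * fourier n x - (if n = 0 then co f 0 else 0) := by
    funext n
    by_cases hn : n = 0
    · subst hn; simp
    · simp [hn]
  rw [e]
  exact h3

/-- The sum over the torsion points against a character. -/
lemma hasSum_tors (f : C(UnitAddCircle, ℝ)) (hs : Summable (co f)) {N : ℕ} (hN : 0 < N) (k : ℤ) :
    HasSum (fun n : ℤ => if n ≠ 0 ∧ (N : ℤ) ∣ k + n then (N : ℂ) * co f n else 0)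
      (∑ x ∈ tors N, fourier k x * (((f x - m0 f : ℝ)) : ℂ)) := by
  classical
  have h1 : HasSum (fun n : ℤ => ∑ x ∈ tors N, fourier k x *
      (if n = 0 then 0 else co f n * fourier n x))
      (∑ x ∈ tors N, fourier k x * (((f x - m0 f : ℝ)) : ℂ)) :=
    hasSum_sum (fun x _ => (hasSum_sub f hs x).mul_left _)
  have e : (fun n : ℤ => if n ≠ 0 ∧ (N : ℤ) ∣ k + n then (N : ℂ) * co f n else 0)
      = fun n : ℤ => ∑ x ∈ tors N, fourier k x * (if n = 0 then 0 else co f n * fourier n x) := by
    funext n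
    by_cases hn : n = 0
    · simp [hn]
    · have : ∑ x ∈ tors N, fourier k x * (if n = 0 then 0 else co f n * fourier n x)
          = co f n * ∑ x ∈ tors N, (fourier (k + n) x : ℂ) := by
        rw [Finset.mul_sum]
        refine Finset.sum_congr rfl (fun x _ => ?_)
        rw [if_neg hn, fourier_add]; ring
      rw [this, char_sum hN]
      by_cases hd : (N : ℤ) ∣ k + n
      · simp [hn, hd, mul_comm]
      · simp [hd]
  rw [e]
  exact h1

end Pool.Agent.Y315.LV
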