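import Pool.Agent.Y315.LV.Cone

/-! # Equality for all invariant weights on torsion points -/

namespace Pool.Agent.Y315.LV

open MeasureTheory Filter Topology

/-- The summability assumption. -/
def Dsum (f : C(UnitAddCircle, ℝ)) : Prop :=
  Summable fun n : ℤ => (n.natAbs.divisors.card : ℝ) * ‖co f n‖

lemma Dsum.norm {f : C(UnitAddCircle, ℝ)} (h : Dsum f) : Summable fun n : ℤ => ‖co f n‖ := by
  have h2 : Summable fun n : ℤ => (if n = 0 then ‖co f 0‖ else 0) :=
    (hasSum_ite_eq (0 : ℤ) (‖co f 0‖)).summable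
  refine Summable.of_nonneg_of_le (fun n => norm_nonneg _) (fun n => ?_) (h.add h2)
  by_cases hn : n = 0
  · subst hn; simp
  · simp only [hn, if_false, add_zero]
    have : 1 ≤ (n.natAbs.divisors.card : ℝ) := by
      have : 0 < n.natAbs.divisors.card :=
        Finset.card_pos.2 ⟨1, Nat.one_mem_divisors.2 (Int.natAbs_ne_zero.2 hn)⟩
      exact_mod_cast this
    nlinarith [norm_nonneg (co f n)]

lemma Dsum.summable {f : C(UnitAddCircle, ℝ)} (h : Dsum f) : Summable (co f) :=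
  h.norm.of_norm

/-- Numbers `N (1 + k Π)`. -/
lemma cop_seq {P : Finset ℕ} (hP : ∀ p ∈ P, p.Prime) {N : ℕ} (hN : Cop P N) (k : ℕ) :
    Cop P (N * (1 + k * ∏ p ∈ P, p)) := by
  refine hN.mul hP ⟨by positivity, fun p hp hd => ?_⟩
  have h1 : p ∣ k * ∏ p ∈ P, p := (Finset.dvd_prod_of_mem _ hp).mul_left k
  have h2 : p ∣ 1 := (Nat.dvd_add_left h1).1 hd
  exact (hP p hp).one_lt.ne' (Nat.dvd_one.1 h2)

lemma exists_small {f : C(UnitAddCircle, ℝ)} (h : Dsum f) {P : Finset ℕ}
    (hP : ∀ p ∈ P, p.Prime) {N : ℕ} (hN : Cop P N) {ε : ℝ} (hε : 0 < ε) :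
    ∃ j, Cop P (N * j) ∧ |∑ x ∈ tors (N * j), (f x - m0 f)| < ε := by
  classical
  by_contra hcon
  push Not at hcon
  set Q := ∏ p ∈ P, p with hQ
  have hQ0 : 0 < Q := Finset.prod_pos (fun p hp => (hP p hp).pos)
  set T : ℕ → ℕ := fun k => N * (1 + k * Q) with hT
  have hT0 : ∀ k, 0 < T k := fun k => (cop_seq hP hN k).1
  have hTinj : Function.Injective T := by
    intro a b hab
    have h1 : 1 + a * Q = 1 + b * Q := Nat.eq_of_mul_eq_mul_left hN.1 hab
    exact Nat.eq_of_mul_eq_mul_right hQ0 (by omega)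
  have hTge : ∀ k, k ≤ T k := by
    intro k
    have h1 : 1 * k ≤ Q * k := Nat.mul_le_mul_right k hQ0
    have h2 : 1 * (1 + k * Q) ≤ N * (1 + k * Q) := Nat.mul_le_mul_right _ hN.1
    show k ≤ N * (1 + k * Q)
    nlinarith
  set G : ℤ × ℕ → ℝ := fun x => if x.1 ≠ 0 ∧ (T x.2 : ℤ) ∣ x.1 then ‖co f x.1‖ else 0 with hG
  have hG0 : 0 ≤ G := fun x => by simp only [hG, Pi.zero_apply]; split_ifs <;> positivity
  -- rows
  have hrow : ∀ n : ℤ, ∀ k ∉ Finset.range (n.natAbs + 1), G (n, k) = 0 := by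
    intro n k hk
    simp only [hG]
    rw [if_neg]
    rintro ⟨h1, h2⟩
    apply hk
    rw [Finset.mem_range]
    have h3 : T k ∣ n.natAbs := Int.natCast_dvd.1 h2
    have h4 := Nat.le_of_dvd (Int.natAbs_pos.2 h1) h3
    have := hTge k
    omega
  have hsumrow : ∀ n : ℤ, Summable fun k => G (n, k) := fun n =>
    summable_of_ne_finset_zero (hrow n)
  have htrow : ∀ n : ℤ, ∑' k, G (n, k) ≤ (n.natAbs.divisors.card : ℝ) * ‖co f n‖ := by
    intro n
    rw [tsum_eq_sum (hrow n)]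
    by_cases hn : n = 0
    · subst hn; simp [hG]
    · have e : ∀ k ∈ Finset.range (n.natAbs + 1), G (n, k)
          = if T k ∣ n.natAbs then ‖co f n‖ else 0 := by
        intro k _
        simp only [hG, ne_eq, hn, not_false_eq_true, true_and, Int.natCast_dvd]
      rw [Finset.sum_congr rfl e, ← Finset.sum_filter, Finset.sum_const, nsmul_eq_mul]
      apply mul_le_mul_of_nonneg_right _ (norm_nonneg _)
      have : ((Finset.range (n.natAbs + 1)).filter (fun k => T k ∣ n.natAbs)).card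
          ≤ n.natAbs.divisors.card := by
        apply Finset.card_le_card_of_injOn T
        · intro k hk
          have := (Finset.mem_filter.1 (Finset.mem_coe.1 hk)).2
          exact Finset.mem_coe.2 (Nat.mem_divisors.2 ⟨this, Int.natAbs_ne_zero.2 hn⟩)
        · exact hTinj.injOn
      exact_mod_cast this
  have hGs : Summable G := by
    rw [summable_prod_of_nonneg hG0]
    refine ⟨hsumrow, Summable.of_nonneg_of_le (fun n => tsum_nonneg (fun k => hG0 (n, k)))
      htrow h⟩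
  have hGs' : Summable fun x : ℕ × ℤ => G (x.2, x.1) := hGs.prod_symm
  have hcol : Summable fun k => ∑' n : ℤ, G (n, k) := hGs'.prod
  -- lower bound
  have hlow : ∀ k, ε / T k ≤ ∑' n : ℤ, G (n, k) := by
    intro k
    have hTk : (0 : ℝ) < T k := by exact_mod_cast hT0 k
    have h1 := hcon (1 + k * Q) (cop_seq hP hN k)
    have h2 := hasSum_tors f h.summable (hT0 k) 0
    have hGk : Summable fun n : ℤ => G (n, k) := hGs'.prod_factor k
    have h3 : ‖∑ x ∈ tors (T k), (fourier 0 x : ℂ) * (((f x - m0 f : ℝ)) : ℂ)‖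
        ≤ (T k : ℝ) * ∑' n : ℤ, G (n, k) := by
      rw [← h2.tsum_eq, ← tsum_mul_left]
      apply tsum_of_norm_bounded (hGk.mul_left (T k : ℝ)).hasSum
      intro n
      simp only [hG, zero_add]
      by_cases hc : n ≠ 0 ∧ (T k : ℤ) ∣ n
      · rw [if_pos hc, if_pos hc, norm_mul]; simp
      · rw [if_neg hc, if_neg hc]; simp
    have h4 : ‖∑ x ∈ tors (T k), (fourier 0 x : ℂ) * (((f x - m0 f : ℝ)) : ℂ)‖
        = |∑ x ∈ tors (T k), (f x - m0 f)| := by
      have : ∑ x ∈ tors (T k), (fourier 0 x : ℂ) * (((f x - m0 f : ℝ)) : ℂ)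
          = ((∑ x ∈ tors (T k), (f x - m0 f) : ℝ) : ℂ) := by
        rw [Complex.ofReal_sum]
        exact Finset.sum_congr rfl (fun x _ => by simp)
      rw [this, Complex.norm_real, Real.norm_eq_abs]
    rw [h4] at h3
    rw [div_le_iff₀ hTk]
    have h5 := h1.trans h3
    linarith
  have hdiv : Summable fun k : ℕ => ε / (T k : ℝ) :=
    Summable.of_nonneg_of_le (fun k => by positivity) hlow hcol
  have hdiv2 : Summable fun k : ℕ => 1 / ((k + 1 : ℕ) : ℝ) := by
    have hN0 : (0 : ℝ) < N := by exact_mod_cast hN.1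
    refine Summable.of_nonneg_of_le (fun k => by positivity) (fun k => ?_)
      (hdiv.mul_left ((N * (1 + Q) : ℝ) / ε))
    have hTk : (0 : ℝ) < T k := by exact_mod_cast hT0 k
    rw [show (N * (1 + Q) : ℝ) / ε * (ε / T k) = (N * (1 + Q) : ℝ) / T k by field_simp]
    rw [div_le_div_iff₀ (by positivity) hTk]
    simp only [hT]
    push_cast
    have hQr : (0 : ℝ) < Q := by exact_mod_cast hQ0
    have : (1 + k * Q : ℝ) ≤ (1 + Q) * (k + 1) := by
      nlinarith [Nat.cast_nonneg (α := ℝ) k]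
    calc 1 * (N * (1 + k * Q) : ℝ) = N * (1 + k * Q) := by ring
      _ ≤ N * ((1 + Q) * (k + 1)) := mul_le_mul_of_nonneg_left this hN0.le
      _ = N * (1 + Q) * (k + 1) := by ring
  have := (summable_nat_add_iff (f := fun k : ℕ => 1 / (k : ℝ)) 1).1 hdiv2
  exact Real.not_summable_one_div_natCast this

section

variable {P : Finset ℕ} (hP : ∀ p ∈ P, p.Prime) {f : C(UnitAddCircle, ℝ)} (hmax : LebMax P f)
  (hd : Dsum f)

include hP hmax hd

lemma weighted_eq_nonneg {N : ℕ} (hN : Cop P N) (φ : UnitAddCircle → ℝ)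
    (h0 : ∀ x ∈ tors N, 0 ≤ φ x) (hinv : ∀ p ∈ P, ∀ x ∈ tors N, φ (p • x) = φ x) :
    ∑ x ∈ tors N, φ x * (f x - m0 f) = 0 := by
  apply le_antisymm (weighted_le hP hmax hN φ h0 hinv)
  set C := ∑ x ∈ tors N, φ x with hC
  have hC0 : 0 ≤ C := Finset.sum_nonneg h0
  have hCb : ∀ x ∈ tors N, φ x ≤ C := fun x hx => Finset.single_le_sum h0 hx
  apply le_of_forall_pos_le_add
  intro ε hε
  obtain ⟨j, hj, hj2⟩ := exists_small hd hP hN (ε := ε / (C + 1)) (by positivity)
  have h1 := weighted_ge hP hmax hN hj φ hCb hC0 hinv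
  have h2 : -(ε / (C + 1)) ≤ ∑ x ∈ tors (N * j), (f x - m0 f) := by
    have := (abs_lt.1 hj2).1; linarith
  have h3 : C * -(ε / (C + 1)) ≤ C * ∑ x ∈ tors (N * j), (f x - m0 f) :=
    mul_le_mul_of_nonneg_left h2 hC0
  have h4 : C * (ε / (C + 1)) ≤ ε := by
    rw [mul_div_assoc', div_le_iff₀ (by positivity)]; nlinarith
  linarith

lemma weighted_eq {N : ℕ} (hN : Cop P N) (φ : UnitAddCircle → ℝ)
    (hinv : ∀ p ∈ P, ∀ x ∈ tors N, φ (p • x) = φ x) :
    ∑ x ∈ tors N, φ x * (f x - m0 f) = 0 := by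
  set C := ∑ x ∈ tors N, |φ x| with hC
  have hC0 : 0 ≤ C := Finset.sum_nonneg (fun x _ => abs_nonneg _)
  have hCb : ∀ x ∈ tors N, |φ x| ≤ C := fun x hx =>
    Finset.single_le_sum (f := fun x => |φ x|) (fun x _ => abs_nonneg _) hx
  have h1 := weighted_eq_nonneg hP hmax hd hN (fun x => φ x + C)
    (fun x hx => by have := (abs_le.1 (hCb x hx)).1; linarith)
    (fun p hp x hx => by simp only [hinv p hp x hx])
  have h2 := weighted_eq_nonneg hP hmax hd hN (fun _ => C) (fun x hx => hC0)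
    (fun p hp x hx => rfl)
  have h3 : ∑ x ∈ tors N, (φ x + C) * (f x - m0 f)
      = ∑ x ∈ tors N, φ x * (f x - m0 f) + ∑ x ∈ tors N, C * (f x - m0 f) := by
    rw [← Finset.sum_add_distrib]
    exact Finset.sum_congr rfl (fun x _ => by ring)
  rw [h3, h2, add_zero] at h1
  exact h1

lemma weighted_eq_complex {N : ℕ} (hN : Cop P N) (φ : UnitAddCircle → ℂ)
    (hinv : ∀ p ∈ P, ∀ x ∈ tors N, φ (p • x) = φ x) :
    ∑ x ∈ tors N, φ x * (((f x - m0 f : ℝ)) : ℂ) = 0 := by
  have h1 := weighted_eq hP hmax hd hN (fun x => (φ x).re)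
    (fun p hp x hx => by simp only [hinv p hp x hx])
  have h2 := weighted_eq hP hmax hd hN (fun x => (φ x).im)
    (fun p hp x hx => by simp only [hinv p hp x hx])
  apply Complex.ext
  · rw [Complex.re_sum]
    simpa using h1
  · rw [Complex.im_sum]
    simpa using h2

end

end Pool.Agent.Y315.LV
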