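import Pool.Agent.Y315.LV.Equal

/-! # Jacobi symbols and twisted functions on torsion points -/

namespace Pool.Agent.Y315.LV

open MeasureTheory Filter Topology NumberTheorySymbols

lemma jac_congr {q : ℕ} {a b : ℤ} (h : (q : ℤ) ∣ a - b) : J(a | q) = J(b | q) := by
  rw [jacobiSym.mod_left a, jacobiSym.mod_left b]
  have : a % (q : ℤ) = b % (q : ℤ) :=
    Int.emod_eq_emod_iff_emod_sub_eq_zero.2 (Int.emod_eq_zero_of_dvd h)
  rw [this]

/-! ### Moduli for which small numbers have Jacobi symbol one -/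

lemma jacobi_small {y m : ℕ} (hm : 1 ≤ m) (hmy : m ≤ y) : J((m : ℤ) | 8 * y.factorial - 1) = 1 := by
  set q := 8 * y.factorial - 1 with hq
  have hf : 0 < y.factorial := Nat.factorial_pos y
  have hq8 : q % 8 = 7 := by omega
  have hqodd : Odd q := Nat.odd_iff.2 (by omega)
  obtain ⟨k, a, ha, rfl⟩ := Nat.exists_eq_two_pow_mul_odd (show m ≠ 0 by omega)
  have h2 : J((2 : ℤ) | q) = 1 := by
    rw [jacobiSym.at_two hqodd, ZMod.χ₈_nat_eq_if_mod_eight]
    simp [hq8, show q % 2 = 1 by omega]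
  have hapos : 0 < a := ha.pos
  have hay : a ≤ y := by
    have : a * 1 ≤ a * 2 ^ k := Nat.mul_le_mul_left a (Nat.one_le_two_pow)
    nlinarith
  have had : a ∣ y.factorial := Nat.dvd_factorial hapos hay
  have haJ : J((a : ℤ) | q) = 1 := by
    rw [jacobiSym.quadratic_reciprocity ha hqodd]
    have h3 : J((q : ℤ) | a) = J((-1 : ℤ) | a) := by
      apply jac_congr
      have e : (y.factorial : ℤ) = a * (y.factorial / a : ℕ) := by
        exact_mod_cast (Nat.mul_div_cancel' had).symm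
      have e2 : (q : ℤ) = 8 * y.factorial - 1 := by
        rw [hq]; push_cast [Nat.cast_sub (show 1 ≤ 8 * y.factorial by omega)]; ring
      rw [e2, e]
      exact ⟨8 * (y.factorial / a : ℕ), by ring⟩
    rw [h3, jacobiSym.at_neg_one ha, ZMod.χ₄_eq_neg_one_pow (Nat.odd_iff.1 ha), ← pow_add]
    have : Even (a / 2 * (q / 2) + a / 2) := by
      have hq2 : (q / 2) % 2 = 1 := by omega
      rw [show a / 2 * (q / 2) + a / 2 = a / 2 * (q / 2 + 1) by ring]
      exact (Nat.even_iff.2 (by omega : (q / 2 + 1) % 2 = 0)).mul_left _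
    exact this.neg_one_pow
  push_cast
  rw [jacobiSym.mul_left, jacobiSym.pow_left, h2, haJ, one_pow, one_mul]

lemma jacobi_neg {y : ℕ} : J((-1 : ℤ) | 8 * y.factorial - 1) = -1 := by
  have hf : 0 < y.factorial := Nat.factorial_pos y
  have hqodd : Odd (8 * y.factorial - 1) := Nat.odd_iff.2 (by omega)
  rw [jacobiSym.at_neg_one hqodd, ZMod.χ₄_nat_three_mod_four (by omega)]

lemma fourier_shift {d q : ℕ} (hdq : 0 < d * q) {x : UnitAddCircle} (hx : x ∈ tors (d * q))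
    (u v : ℤ) (h : (q : ℤ) ∣ u - v) :
    (fourier (u * d) x : ℂ) = fourier (v * d) x := by
  obtain ⟨k, hk⟩ := h
  have e : u * d = k * ((d * q : ℕ) : ℤ) + v * d := by
    have : u = v + q * k := by linarith
    rw [this]; push_cast; ring
  rw [e, fourier_add, fourier_mul_nat, (mem_tors hdq).1 hx]
  simp

/-- The twisted sum of characters. -/
noncomputable def Th (d q : ℕ) [NeZero q] (x : UnitAddCircle) : ℂ :=
  ∑ h : ZMod q, (J((h.val : ℤ) | q) : ℂ) * fourier ((h.val : ℤ) * d) x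

lemma Th_inv {P : Finset ℕ} (hP : ∀ p ∈ P, p.Prime) {d q : ℕ} [NeZero q] (hN : 0 < d * q)
    (hqc : Cop P q) (hJ : ∀ p ∈ P, J((p : ℤ) | q) = 1) :
    ∀ p ∈ P, ∀ x ∈ tors (d * q), Th d q (p • x) = Th d q x := by
  intro p hp x hx
  have hcop : p.Coprime q := hqc.coprime hP hp
  set e : ZMod q ≃ ZMod q := Units.mulLeft (ZMod.unitOfCoprime p hcop) with he
  unfold Th
  have hsum := e.sum_comp (fun h : ZMod q =>
    (J((h.val : ℤ) | q) : ℂ) * (fourier ((h.val : ℤ) * d) x : ℂ))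
  rw [← hsum]
  refine Finset.sum_congr rfl (fun h _ => ?_)
  have hval : (q : ℤ) ∣ ((p : ℤ) * (h.val : ℤ)) - ((e h).val : ℤ) := by
    have h1 : (((p : ℤ) * (h.val : ℤ) - ((e h).val : ℤ) : ℤ) : ZMod q) = 0 := by
      rw [Int.cast_sub, Int.cast_mul, Int.cast_natCast, Int.cast_natCast, Int.cast_natCast,
        ZMod.natCast_zmod_val, ZMod.natCast_zmod_val]
      rw [he, Units.mulLeft_apply, ZMod.coe_unitOfCoprime, sub_self]
    exact (ZMod.intCast_zmod_eq_zero_iff_dvd _ _).1 h1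
  have h2 : J(((e h).val : ℤ) | q) = J((h.val : ℤ) | q) := by
    rw [← jac_congr hval, jacobiSym.mul_left, hJ p hp, one_mul]
  have h3 : (fourier ((h.val : ℤ) * d) (p • x) : ℂ) = fourier (((e h).val : ℤ) * d) x := by
    rw [← fourier_mul_nat, ← fourier_shift hN hx _ _ hval,
      show (h.val : ℤ) * (d : ℤ) * (p : ℤ) = (p : ℤ) * (h.val : ℤ) * (d : ℤ) by ring]
  rw [h2, h3]

lemma Th_sum {d q : ℕ} [NeZero q] (g : UnitAddCircle → ℂ) :
    ∑ x ∈ tors (d * q), Th d q x * g x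
      = ∑ h : ZMod q, (J((h.val : ℤ) | q) : ℂ) *
        ∑ x ∈ tors (d * q), (fourier ((h.val : ℤ) * d) x : ℂ) * g x := by
  unfold Th
  simp only [Finset.sum_mul, Finset.mul_sum]
  rw [Finset.sum_comm]
  refine Finset.sum_congr rfl (fun h _ => Finset.sum_congr rfl (fun x _ => by ring))

lemma coef_eval {d q : ℕ} [NeZero q] (hd : 0 < d) (hneg : J((-1 : ℤ) | q) = -1) (c : ℤ → ℂ) (n : ℤ) :
    ∑ h : ZMod q, (J((h.val : ℤ) | q) : ℂ) *
      (if n ≠ 0 ∧ ((d * q : ℕ) : ℤ) ∣ (h.val : ℤ) * d + n then ((d * q : ℕ) : ℂ) * c n else 0)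
      = (-((d * q : ℕ) : ℂ)) *
        (if n ≠ 0 ∧ (d : ℤ) ∣ n then (J(n / d | q) : ℂ) * c n else 0) := by
  by_cases hn : n = 0
  · simp [hn]
  by_cases hdn : (d : ℤ) ∣ n
  · obtain ⟨n1, rfl⟩ := hdn
    have hd0 : (d : ℤ) ≠ 0 := by exact_mod_cast hd.ne'
    rw [if_pos ⟨hn, dvd_mul_right _ _⟩, Int.mul_ediv_cancel_left _ hd0]
    have hiff : ∀ h : ZMod q,
        (((d * q : ℕ) : ℤ) ∣ (h.val : ℤ) * d + d * n1) ↔ h = ((-n1 : ℤ) : ZMod q) := by
      intro h
      rw [show (h.val : ℤ) * d + d * n1 = d * ((h.val : ℤ) + n1) by ring, Nat.cast_mul,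
        mul_dvd_mul_iff_left hd0, ← ZMod.intCast_zmod_eq_zero_iff_dvd, Int.cast_add,
        Int.cast_natCast, ZMod.natCast_zmod_val, add_eq_zero_iff_eq_neg, Int.cast_neg]
    rw [Finset.sum_eq_single (((-n1 : ℤ) : ZMod q))]
    · rw [if_pos ⟨hn, (hiff _).2 rfl⟩]
      have h5 : J(((((-n1 : ℤ) : ZMod q)).val : ℤ) | q) = -J(n1 | q) := by
        have h6 : (q : ℤ) ∣ ((((-n1 : ℤ) : ZMod q)).val : ℤ) - (-n1) := by
          have h1 : ((((((-n1 : ℤ) : ZMod q)).val : ℤ) - (-n1) : ℤ) : ZMod q) = 0 := by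
            rw [Int.cast_sub, Int.cast_natCast, ZMod.natCast_zmod_val, sub_self]
          exact (ZMod.intCast_zmod_eq_zero_iff_dvd _ _).1 h1
        rw [jac_congr h6, show -n1 = (-1) * n1 by ring, jacobiSym.mul_left, hneg]; ring
      rw [h5, Int.cast_neg]
      ring
    · intro h _ hne
      rw [if_neg, mul_zero]
      rintro ⟨-, h7⟩
      exact hne ((hiff h).1 h7)
    · intro h; exact absurd (Finset.mem_univ _) h
  · rw [if_neg (fun h => hdn h.2), mul_zero]
    apply Finset.sum_eq_zero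
    intro h _
    rw [if_neg, mul_zero]
    rintro ⟨-, h7⟩
    apply hdn
    have h8 : (d : ℤ) ∣ (h.val : ℤ) * d + n := by
      refine dvd_trans ?_ h7
      rw [Nat.cast_mul]
      exact dvd_mul_right _ _
    exact (Int.dvd_add_right (dvd_mul_left _ _)).1 h8

end Pool.Agent.Y315.LV
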