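import Pool.Agent.Y315.LV.Jac

/-! # Sums over positive and negative multiples -/

namespace Pool.Agent.Y315.LV

open MeasureTheory Filter Topology NumberTheorySymbols

lemma sign_eq_jac {y : ℕ} {n : ℤ} (hn : n ≠ 0)
    (h : J((n.natAbs : ℤ) | 8 * y.factorial - 1) = 1) :
    Int.sign n = J(n | 8 * y.factorial - 1) := by
  rcases lt_or_gt_of_ne hn with h1 | h1
  · rw [Int.sign_eq_neg_one_of_neg h1]
    have e : n = (-1) * (n.natAbs : ℤ) := by omega
    have e2 : J(n | 8 * y.factorial - 1) = J((-1) * (n.natAbs : ℤ) | 8 * y.factorial - 1) := by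
      rw [← e]
    rw [e2, jacobiSym.mul_left, jacobi_neg, h]; rfl
  · rw [Int.sign_eq_one_of_pos h1]
    have e : n = (n.natAbs : ℤ) := by omega
    have e2 : J(n | 8 * y.factorial - 1) = J((n.natAbs : ℤ) | 8 * y.factorial - 1) := by
      rw [← e]
    rw [e2, h]

section

variable {P : Finset ℕ} (hP : ∀ p ∈ P, p.Prime) {f : C(UnitAddCircle, ℝ)} (hmax : LebMax P f)
  (hd : Dsum f)

include hP hmax hd

/-- The twisted relation. -/
lemma twisted {d q : ℕ} [NeZero q] (hdc : Cop P d) (hqc : Cop P q)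
    (hJ : ∀ p ∈ P, J((p : ℤ) | q) = 1) (hneg : J((-1 : ℤ) | q) = -1) :
    ∑' n : ℤ, (if n ≠ 0 ∧ (d : ℤ) ∣ n then (J(n / d | q) : ℂ) * co f n else 0) = 0 := by
  have hN : Cop P (d * q) := hdc.mul hP hqc
  have hzero := weighted_eq_complex hP hmax hd hN (Th d q) (Th_inv hP hN.1 hqc hJ)
  rw [Th_sum (fun x => (((f x - m0 f : ℝ)) : ℂ))] at hzero
  have hs := hasSum_sum (s := (Finset.univ : Finset (ZMod q))) (fun h _ =>
    (hasSum_tors f hd.summable hN.1 ((h.val : ℤ) * d)).mul_left (J((h.val : ℤ) | q) : ℂ))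
  rw [hzero] at hs
  have hs2 : HasSum (fun n : ℤ => (-((d * q : ℕ) : ℂ)) *
        (if n ≠ 0 ∧ (d : ℤ) ∣ n then (J(n / d | q) : ℂ) * co f n else 0)) 0 :=
    hs.congr_fun (fun n => (coef_eval hdc.1 hneg (co f) n).symm)
  have h9 : (-((d * q : ℕ) : ℂ)) ≠ 0 := neg_ne_zero.2 (by exact_mod_cast hN.1.ne')
  have h10 := hs2.tsum_eq
  rw [tsum_mul_left] at h10
  exact (mul_eq_zero.1 h10).resolve_left h9

/-- The untwisted relation. -/
lemma untwisted {d : ℕ} (hdc : Cop P d) :
    ∑' n : ℤ, (if n ≠ 0 ∧ (d : ℤ) ∣ n then co f n else 0) = 0 := by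
  have h1 := weighted_eq_complex hP hmax hd hdc (fun _ => 1) (fun _ _ _ _ => rfl)
  have h2 := (hasSum_tors f hd.summable hdc.1 0).tsum_eq
  have h3 : ∑ x ∈ tors d, (fourier 0 x : ℂ) * (((f x - m0 f : ℝ)) : ℂ) = 0 := by
    rw [← h1]
    exact Finset.sum_congr rfl (fun x _ => by simp)
  rw [h3] at h2
  have h4 : (fun n : ℤ => if n ≠ 0 ∧ (d : ℤ) ∣ 0 + n then (d : ℂ) * co f n else 0)
      = fun n : ℤ => (d : ℂ) * (if n ≠ 0 ∧ (d : ℤ) ∣ n then co f n else 0) := by
    funext n; rw [zero_add]; split_ifs <;> simp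
  rw [h4, tsum_mul_left] at h2
  exact (mul_eq_zero.1 h2).resolve_left (by exact_mod_cast hdc.1.ne')

/-- The limit of the twisted relations. -/
lemma signed {d : ℕ} (hdc : Cop P d) :
    ∑' n : ℤ, (if n ≠ 0 ∧ (d : ℤ) ∣ n then (Int.sign n : ℂ) * co f n else 0) = 0 := by
  classical
  have lim : Tendsto (fun y : ℕ => ∑' n : ℤ, (if n ≠ 0 ∧ (d : ℤ) ∣ n then
      (J(n / d | 8 * y.factorial - 1) : ℂ) * co f n else 0)) atTop
      (𝓝 (∑' n : ℤ, (if n ≠ 0 ∧ (d : ℤ) ∣ n then (Int.sign n : ℂ) * co f n else 0))) := by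
    apply tendsto_tsum_of_dominated_convergence hd.norm
    · intro n
      by_cases hn : n ≠ 0 ∧ (d : ℤ) ∣ n
      · simp only [if_pos hn]
        obtain ⟨hn0, n1, rfl⟩ := hn
        have hd0 : (d : ℤ) ≠ 0 := by exact_mod_cast hdc.1.ne'
        have hdp : (0 : ℤ) < d := by exact_mod_cast hdc.1
        rw [Int.mul_ediv_cancel_left _ hd0]
        have hn1 : n1 ≠ 0 := by rintro rfl; simp at hn0
        apply tendsto_const_nhds.congr'
        filter_upwards [eventually_ge_atTop n1.natAbs] with y hy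
        have hJ1 := jacobi_small (y := y) (m := n1.natAbs) (Int.natAbs_pos.2 hn1) hy
        congr 2
        rw [Int.sign_mul, Int.sign_eq_one_of_pos hdp, one_mul]
        exact sign_eq_jac hn1 hJ1
      · simp only [if_neg hn]
        exact tendsto_const_nhds
    · filter_upwards with y n
      split_ifs
      · rw [norm_mul]
        apply mul_le_of_le_one_left (norm_nonneg _)
        rcases jacobiSym.trichotomy (n / d) (8 * y.factorial - 1) with h | h | h <;> rw [h] <;> simp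
      · simp
  have hz : ∀ᶠ y : ℕ in atTop, ∑' n : ℤ, (if n ≠ 0 ∧ (d : ℤ) ∣ n then
      (J(n / d | 8 * y.factorial - 1) : ℂ) * co f n else 0) = 0 := by
    filter_upwards [eventually_ge_atTop (P.sup id)] with y hy
    have hf : 0 < y.factorial := Nat.factorial_pos y
    have : NeZero (8 * y.factorial - 1) := ⟨by omega⟩
    have hpy : ∀ p ∈ P, p ≤ y := fun p hp => (Finset.le_sup (f := id) hp).trans hy
    apply twisted hP hmax hd hdc
    · refine ⟨by omega, fun p hp hdvd => ?_⟩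
      have h1 : p ∣ y.factorial := Nat.dvd_factorial (hP p hp).pos (hpy p hp)
      have h2 : p ∣ 8 * y.factorial := h1.mul_left 8
      have h3 : p ∣ 8 * y.factorial - (8 * y.factorial - 1) := Nat.dvd_sub h2 hdvd
      rw [show 8 * y.factorial - (8 * y.factorial - 1) = 1 by omega] at h3
      exact (hP p hp).one_lt.ne' (Nat.dvd_one.1 h3)
    · intro p hp
      exact jacobi_small (hP p hp).one_le (hpy p hp)
    · exact jacobi_neg
  exact tendsto_nhds_unique lim (tendsto_const_nhds.congr' (hz.mono fun y hy => hy.symm))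

/-- Positive multiples. -/
lemma pos_sum {d : ℕ} (hdc : Cop P d) :
    ∑' n : ℕ, (if d * n = 0 then 0 else co f ((d * n : ℕ) : ℤ)) = 0 := by
  classical
  have h1 := untwisted hP hmax hd hdc
  have h2 := signed hP hmax hd hdc
  have s1 : Summable fun n : ℤ => (if n ≠ 0 ∧ (d : ℤ) ∣ n then co f n else 0) := by
    refine Summable.of_norm_bounded hd.norm (fun n => ?_)
    split_ifs <;> simp
  have s2 : Summable fun n : ℤ => (if n ≠ 0 ∧ (d : ℤ) ∣ n then (Int.sign n : ℂ) * co f n else 0) := by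
    refine Summable.of_norm_bounded hd.norm (fun n => ?_)
    split_ifs
    · rw [norm_mul]
      apply mul_le_of_le_one_left (norm_nonneg _)
      rcases lt_trichotomy n 0 with h | h | h
      · rw [Int.sign_eq_neg_one_of_neg h]; simp
      · rw [h]; simp
      · rw [Int.sign_eq_one_of_pos h]; simp
    · simp
  have h3 := s1.tsum_add s2
  rw [h1, h2, add_zero] at h3
  have hinj : Function.Injective (fun n : ℕ => ((d * n : ℕ) : ℤ)) := by
    intro a b h
    have h' : ((d * a : ℕ) : ℤ) = ((d * b : ℕ) : ℤ) := h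
    have : d * a = d * b := by exact_mod_cast h'
    exact Nat.eq_of_mul_eq_mul_left hdc.1 this
  rw [← hinj.tsum_eq] at h3
  · have e : ∀ n : ℕ, ((if (((d * n : ℕ) : ℤ)) ≠ 0 ∧ (d : ℤ) ∣ ((d * n : ℕ) : ℤ) then
        co f ((d * n : ℕ) : ℤ) else 0) + (if (((d * n : ℕ) : ℤ)) ≠ 0 ∧ (d : ℤ) ∣ ((d * n : ℕ) : ℤ) then
        (Int.sign ((d * n : ℕ) : ℤ) : ℂ) * co f ((d * n : ℕ) : ℤ) else 0))
        = 2 * (if d * n = 0 then 0 else co f ((d * n : ℕ) : ℤ)) := by
      intro n
      by_cases hz : d * n = 0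
      · simp [hz]
      · have hz' : ((d * n : ℕ) : ℤ) ≠ 0 := by exact_mod_cast hz
        have hdv : (d : ℤ) ∣ ((d * n : ℕ) : ℤ) := by push_cast; exact dvd_mul_right _ _
        have hs : Int.sign ((d * n : ℕ) : ℤ) = 1 :=
          Int.sign_eq_one_of_pos (by exact_mod_cast Nat.pos_of_ne_zero hz)
        rw [if_pos ⟨hz', hdv⟩, if_pos ⟨hz', hdv⟩, if_neg hz, hs]
        push_cast; ring
    simp only [e] at h3
    rw [tsum_mul_left] at h3
    exact (mul_eq_zero.1 h3).resolve_left two_ne_zero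
  · intro n hn
    simp only [Function.mem_support] at hn
    have hn1 : n ≠ 0 ∧ (d : ℤ) ∣ n := by by_contra h; simp [h] at hn
    obtain ⟨hn0, k, rfl⟩ := hn1
    have hdp : (0 : ℤ) < d := by exact_mod_cast hdc.1
    have hk : 0 ≤ k := by
      by_contra hk
      push Not at hk
      apply hn
      rw [if_pos ⟨hn0, dvd_mul_right _ _⟩, if_pos ⟨hn0, dvd_mul_right _ _⟩,
        Int.sign_eq_neg_one_of_neg (mul_neg_of_pos_of_neg hdp hk)]
      push_cast; ring
    obtain ⟨r, rfl⟩ := Int.eq_ofNat_of_zero_le hk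
    exact ⟨r, by push_cast; rfl⟩

/-- Negative multiples. -/
lemma neg_sum {d : ℕ} (hdc : Cop P d) :
    ∑' n : ℕ, (if d * n = 0 then 0 else co f (-((d * n : ℕ) : ℤ))) = 0 := by
  classical
  have h1 := untwisted hP hmax hd hdc
  have h2 := signed hP hmax hd hdc
  have s1 : Summable fun n : ℤ => (if n ≠ 0 ∧ (d : ℤ) ∣ n then co f n else 0) := by
    refine Summable.of_norm_bounded hd.norm (fun n => ?_)
    split_ifs <;> simp
  have s2 : Summable fun n : ℤ => (if n ≠ 0 ∧ (d : ℤ) ∣ n then (Int.sign n : ℂ) * co f n else 0) := by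
    refine Summable.of_norm_bounded hd.norm (fun n => ?_)
    split_ifs
    · rw [norm_mul]
      apply mul_le_of_le_one_left (norm_nonneg _)
      rcases lt_trichotomy n 0 with h | h | h
      · rw [Int.sign_eq_neg_one_of_neg h]; simp
      · rw [h]; simp
      · rw [Int.sign_eq_one_of_pos h]; simp
    · simp
  have h3 := s1.tsum_sub s2
  rw [h1, h2, sub_zero] at h3
  have hinj : Function.Injective (fun n : ℕ => -((d * n : ℕ) : ℤ)) := by
    intro a b h
    have : d * a = d * b := by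
      have h' : ((d * a : ℕ) : ℤ) = ((d * b : ℕ) : ℤ) := neg_injective h
      exact_mod_cast h'
    exact Nat.eq_of_mul_eq_mul_left hdc.1 this
  rw [← hinj.tsum_eq] at h3
  · have e : ∀ n : ℕ, ((if (-((d * n : ℕ) : ℤ)) ≠ 0 ∧ (d : ℤ) ∣ -((d * n : ℕ) : ℤ) then
        co f (-((d * n : ℕ) : ℤ)) else 0) - (if (-((d * n : ℕ) : ℤ)) ≠ 0 ∧ (d : ℤ) ∣ -((d * n : ℕ) : ℤ) then
        (Int.sign (-((d * n : ℕ) : ℤ)) : ℂ) * co f (-((d * n : ℕ) : ℤ)) else 0))
        = 2 * (if d * n = 0 then 0 else co f (-((d * n : ℕ) : ℤ))) := by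
      intro n
      by_cases hz : d * n = 0
      · simp [hz]
      · have hz' : (-((d * n : ℕ) : ℤ)) ≠ 0 := by
          rw [neg_ne_zero]; exact_mod_cast hz
        have hdv : (d : ℤ) ∣ -((d * n : ℕ) : ℤ) := by
          rw [dvd_neg]; push_cast; exact dvd_mul_right _ _
        have hs : Int.sign (-((d * n : ℕ) : ℤ)) = -1 :=
          Int.sign_eq_neg_one_of_neg (by
            have : (0 : ℤ) < ((d * n : ℕ) : ℤ) := by exact_mod_cast Nat.pos_of_ne_zero hz
            omega)
        rw [if_pos ⟨hz', hdv⟩, if_pos ⟨hz', hdv⟩, if_neg hz, hs]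
        push_cast; ring
    simp only [e] at h3
    rw [tsum_mul_left] at h3
    exact (mul_eq_zero.1 h3).resolve_left two_ne_zero
  · intro n hn
    simp only [Function.mem_support] at hn
    have hn1 : n ≠ 0 ∧ (d : ℤ) ∣ n := by by_contra h; simp [h] at hn
    obtain ⟨hn0, k, rfl⟩ := hn1
    have hdp : (0 : ℤ) < d := by exact_mod_cast hdc.1
    have hk : k ≤ 0 := by
      by_contra hk
      push Not at hk
      apply hn
      rw [if_pos ⟨hn0, dvd_mul_right _ _⟩, if_pos ⟨hn0, dvd_mul_right _ _⟩,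
        Int.sign_eq_one_of_pos (mul_pos hdp hk)]
      push_cast; ring
    obtain ⟨r, hr⟩ := Int.eq_ofNat_of_zero_le (show 0 ≤ -k by omega)
    refine ⟨r, ?_⟩
    have : k = -(r : ℤ) := by omega
    rw [this]; push_cast; ring

end

end Pool.Agent.Y315.LV
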