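import Mathlib

/-! # Torsion points of the circle and character sums -/

namespace Pool.Agent.Y315.LV

open MeasureTheory

lemma nsmul_coe (p : ℕ) (x : ℝ) : p • (x : UnitAddCircle) = ((p * x : ℝ) : UnitAddCircle) := by
  rw [← nsmul_eq_mul]; rfl

lemma coe_eq_zero {x : ℝ} : (x : UnitAddCircle) = 0 ↔ ∃ k : ℤ, x = k := by
  rw [AddCircle.coe_eq_zero_iff]
  constructor
  · rintro ⟨k, hk⟩; exact ⟨k, by rw [← hk]; simp⟩
  · rintro ⟨k, hk⟩; exact ⟨k, by rw [hk]; simp⟩

lemma coe_eq_coe {x y : ℝ} : (x : UnitAddCircle) = y ↔ ∃ k : ℤ, x - y = k := by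
  rw [← sub_eq_zero, ← AddCircle.coe_sub, coe_eq_zero]

open Classical in
/-- The points killed by `N`. -/
noncomputable def tors (N : ℕ) : Finset UnitAddCircle :=
  (Finset.range N).image (fun k : ℕ => (((k : ℝ) / N : ℝ) : UnitAddCircle))

lemma mem_tors {N : ℕ} (hN : 0 < N) {x : UnitAddCircle} : x ∈ tors N ↔ N • x = 0 := by
  have hNr : (0 : ℝ) < N := by exact_mod_cast hN
  constructor
  · intro h
    obtain ⟨k, -, rfl⟩ := Finset.mem_image.1 h
    rw [nsmul_coe, coe_eq_zero]
    exact ⟨k, by push_cast; field_simp⟩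
  · intro h
    obtain ⟨y, rfl⟩ := QuotientAddGroup.mk_surjective x
    have h' : N • (y : UnitAddCircle) = 0 := h
    rw [nsmul_coe, coe_eq_zero] at h'
    obtain ⟨k, hk⟩ := h'
    have h1 : (0 : ℤ) ≤ k % N := Int.emod_nonneg _ (by exact_mod_cast hN.ne')
    have h2 : k % N < N := Int.emod_lt_of_pos _ (by exact_mod_cast hN)
    obtain ⟨r, hr⟩ := Int.eq_ofNat_of_zero_le h1
    refine Finset.mem_image.2 ⟨r, Finset.mem_range.2 (by rw [hr] at h2; exact_mod_cast h2), ?_⟩
    apply coe_eq_coe.2
    refine ⟨-(k / N), ?_⟩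
    have e := Int.mul_ediv_add_emod k N
    rw [hr] at e
    have e2 : (N : ℝ) * ((k / N : ℤ) : ℝ) + r = k := by exact_mod_cast e
    have e3 : y = k / N := by field_simp; linarith
    rw [e3, ← e2]
    push_cast
    field_simp
    ring

lemma card_tors {N : ℕ} (hN : 0 < N) : (tors N).card = N := by
  have hNr : (0 : ℝ) < N := by exact_mod_cast hN
  unfold tors
  rw [Finset.card_image_of_injOn, Finset.card_range]
  intro a ha b hb h
  have ha' := Finset.mem_range.1 (Finset.mem_coe.1 ha)
  have hb' := Finset.mem_range.1 (Finset.mem_coe.1 hb)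
  obtain ⟨k, hk⟩ := coe_eq_coe.1 h
  have h1 : ((a : ℤ) : ℝ) - ((b : ℤ) : ℝ) = ((k * N : ℤ) : ℝ) := by
    push_cast
    field_simp at hk
    linarith
  have h2 : (a : ℤ) - b = k * N := by exact_mod_cast h1
  have h3 : k = 0 := by
    by_contra hne
    rcases lt_trichotomy k 0 with h | h | h
    · have : k * N ≤ -1 * N := mul_le_mul_of_nonneg_right (by omega) (by omega)
      omega
    · exact hne h
    · have : 1 * (N : ℤ) ≤ k * N := mul_le_mul_of_nonneg_right (by omega) (by omega)
      omega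
  rw [h3, zero_mul] at h2
  omega

lemma tors_add {N : ℕ} (hN : 0 < N) {x y : UnitAddCircle} (hx : x ∈ tors N) (hy : y ∈ tors N) :
    x + y ∈ tors N := by
  rw [mem_tors hN] at *
  rw [smul_add, hx, hy, add_zero]

lemma tors_nsmul {N : ℕ} (hN : 0 < N) {x : UnitAddCircle} (hx : x ∈ tors N) (p : ℕ) :
    p • x ∈ tors N := by
  rw [mem_tors hN] at *
  rw [smul_comm, hx, smul_zero]

lemma coprime_smul {N p : ℕ} (hc : p.Coprime N) {x : UnitAddCircle} (h1 : N • x = 0)
    (h2 : p • x = 0) : x = 0 := by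
  have d1 := addOrderOf_dvd_of_nsmul_eq_zero h1
  have d2 := addOrderOf_dvd_of_nsmul_eq_zero h2
  have d3 := Nat.dvd_gcd d2 d1
  rw [hc] at d3
  exact AddMonoid.addOrderOf_eq_one_iff.1 (Nat.dvd_one.1 d3)

lemma nsmul_injOn {N p : ℕ} (hN : 0 < N) (hc : p.Coprime N) :
    Set.InjOn (fun x : UnitAddCircle => p • x) (tors N) := by
  intro x hx y hy h
  have hx' := (mem_tors hN).1 (Finset.mem_coe.1 hx)
  have hy' := (mem_tors hN).1 (Finset.mem_coe.1 hy)
  have : x - y = 0 := coprime_smul hc (by rw [smul_sub, hx', hy', sub_zero])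
    (by simp only at h; rw [smul_sub, h, sub_self])
  exact sub_eq_zero.1 this

open Classical in
lemma nsmul_image {N p : ℕ} (hN : 0 < N) (hc : p.Coprime N) :
    (tors N).image (fun x => p • x) = tors N := by
  apply Finset.eq_of_subset_of_card_le
  · intro y hy
    obtain ⟨x, hx, rfl⟩ := Finset.mem_image.1 hy
    exact tors_nsmul hN hx p
  · rw [Finset.card_image_of_injOn (nsmul_injOn hN hc)]

lemma sum_nsmul {M : Type*} [AddCommMonoid M] {N p : ℕ} (hN : 0 < N) (hc : p.Coprime N)
    (g : UnitAddCircle → M) : ∑ x ∈ tors N, g (p • x) = ∑ x ∈ tors N, g x := by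
  classical
  conv_rhs => rw [← nsmul_image hN hc]
  rw [Finset.sum_image (nsmul_injOn hN hc)]

lemma fourier_one_coe (n : ℤ) (x : ℝ) :
    fourier n (x : UnitAddCircle) = Complex.exp (2 * Real.pi * n * x * Complex.I) := by
  rw [fourier_coe_apply]
  congr 1
  push_cast
  ring

lemma fourier_mul_nat (n : ℤ) (N : ℕ) (x : UnitAddCircle) :
    (fourier (n * N) x : ℂ) = fourier n (N • x) := by
  obtain ⟨y, rfl⟩ := QuotientAddGroup.mk_surjective x
  have : (fourier (n * N) (y : UnitAddCircle) : ℂ) = fourier n (N • (y : UnitAddCircle)) := by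
    rw [nsmul_coe, fourier_one_coe, fourier_one_coe]
    congr 1; push_cast; ring
  exact this

/-- Orthogonality. -/
lemma char_sum {N : ℕ} (hN : 0 < N) (n : ℤ) :
    ∑ x ∈ tors N, (fourier n x : ℂ) = if (N : ℤ) ∣ n then (N : ℂ) else 0 := by
  have hNr : (0 : ℝ) < N := by exact_mod_cast hN
  split_ifs with h
  · obtain ⟨k, rfl⟩ := h
    have : ∀ x ∈ tors N, (fourier ((N : ℤ) * k) x : ℂ) = 1 := by
      intro x hx
      rw [mul_comm, fourier_mul_nat, (mem_tors hN).1 hx]
      simp
    rw [Finset.sum_congr rfl this, Finset.sum_const, card_tors hN]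
    simp
  · set z : UnitAddCircle := ((1 / N : ℝ) : UnitAddCircle) with hz
    have hzt : z ∈ tors N := by
      rw [mem_tors hN, hz, nsmul_coe, coe_eq_zero]
      exact ⟨1, by push_cast; field_simp⟩
    have hbij : ∑ x ∈ tors N, (fourier n (x + z) : ℂ) = ∑ x ∈ tors N, (fourier n x : ℂ) := by
      apply Finset.sum_bij' (fun x _ => x + z) (fun x _ => x - z)
      · intro x hx; exact tors_add hN hx hzt
      · intro x hx
        rw [mem_tors hN] at *
        rw [smul_sub, hx, hzt, sub_zero]
      · intro x _; simp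
      · intro x _; simp
      · intro x _; rfl
    have hmul : ∀ x : UnitAddCircle, (fourier n (x + z) : ℂ) = fourier n x * fourier n z := by
      intro x
      simp only [fourier_apply, smul_add, AddCircle.toCircle_add, Circle.coe_mul]
    simp only [hmul] at hbij
    rw [← Finset.sum_mul] at hbij
    have hne : (fourier n z : ℂ) ≠ 1 := by
      rw [hz, fourier_one_coe]
      intro h1
      rw [Complex.exp_eq_one_iff] at h1
      obtain ⟨k, hk⟩ := h1
      apply h
      refine ⟨k, ?_⟩
      have hpi : (Real.pi : ℂ) ≠ 0 := by exact_mod_cast Real.pi_ne_zero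
      have hI := Complex.I_ne_zero
      have hNc : (N : ℂ) ≠ 0 := by exact_mod_cast hN.ne'
      have h2 : (n : ℂ) = N * k := by
        have h3 : (2 * Real.pi * Complex.I : ℂ) * ((n : ℂ) / N - k) = 0 := by
          push_cast at hk
          linear_combination hk
        have h4 := (mul_eq_zero.1 h3).resolve_left (by simp [hpi, hI])
        field_simp at h4
        linear_combination h4
      exact_mod_cast h2
    have : (∑ x ∈ tors N, (fourier n x : ℂ)) * ((fourier n z : ℂ) - 1) = 0 := by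
      rw [mul_sub, hbij, mul_one, sub_self]
    exact (mul_eq_zero.1 this).resolve_right (sub_ne_zero.2 hne)

end Pool.Agent.Y315.LV
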